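import Mathlib

set_option autoImplicit false

namespace Pool.Agent.Results.MP_540c93_co.NoFinite

/-- `S` is an independent dominating set of `G`. -/
def IndepDom {W : Type} (G : SimpleGraph W) (S : Set W) : Prop :=
  (∀ u ∈ S, ∀ v ∈ S, ¬ G.Adj u v) ∧ ∀ v, v ∉ S → ∃ u ∈ S, G.Adj u v

/-- `S` is an `i`-set: an independent dominating set of minimum size. -/
def IsISet {W : Type} (G : SimpleGraph W) (S : Set W) : Prop :=
  IndepDom G S ∧ ∀ T, IndepDom G T → S.ncard ≤ T.ncard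

/-- The `i`-graph of `G`: `i`-sets, adjacent when one token slides along an edge of `G`. -/
def iGraph {W : Type} (G : SimpleGraph W) : SimpleGraph {S : Set W // IsISet G S} where
  Adj X Y := ∃ u ∈ X.1, ∃ v, v ∉ X.1 ∧ G.Adj u v ∧ Y.1 = insert v (X.1 \ {u})
  symm := ⟨by
    rintro X Y ⟨u, hu, v, hv, huv, h⟩
    refine ⟨v, by rw [h]; simp, u, ?_, huv.symm, ?_⟩
    · rw [h]; simp [huv.ne]
    · rw [h]
      ext w
      by_cases h1 : w = u
      · simp [h1, hu]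
      · by_cases h2 : w = v
        · subst h2; simp [h1, hv]
        · simp [h1, h2]⟩
  loopless := ⟨by
    rintro X ⟨u, -, v, hv, -, h⟩
    exact hv (by rw [h]; simp)⟩

/-- `H` is isomorphic to the `i`-graph of some finite graph. -/
def IsIGraph {V : Type} (H : SimpleGraph V) : Prop :=
  ∃ (W : Type) (_ : Finite W) (G : SimpleGraph W), Nonempty (H ≃g iGraph G)

lemma adj_sub {W : Type} {G : SimpleGraph W} {X Y : {S : Set W // IsISet G S}}
    (h : (iGraph G).Adj X Y) : (X.1 \ Y.1).Subsingleton := by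
  obtain ⟨u, -, v, -, -, h⟩ := h
  have key : ∀ a ∈ X.1 \ Y.1, a = u := by
    intro a ha
    by_contra hne
    exact ha.2 (by rw [h]; exact Or.inr ⟨ha.1, hne⟩)
  intro a ha b hb
  rw [key a ha, key b hb]

lemma sub_adj {W : Type} [Finite W] {G : SimpleGraph W} {X Y : {S : Set W // IsISet G S}}
    (hne : X ≠ Y) (h : (X.1 \ Y.1).Subsingleton) : (iGraph G).Adj X Y := by
  have hc : X.1.ncard = Y.1.ncard := le_antisymm (X.2.2 _ Y.2.1) (Y.2.2 _ X.2.1)
  have h1 := Set.ncard_inter_add_ncard_sdiff_eq_ncard X.1 Y.1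
  have h2 := Set.ncard_inter_add_ncard_sdiff_eq_ncard Y.1 X.1
  rw [Set.inter_comm] at h2
  rcases h.eq_empty_or_singleton with h | ⟨u, h⟩
  · exact absurd (Subtype.ext (Set.eq_of_subset_of_ncard_le (Set.sdiff_eq_empty.1 h) hc.ge)) hne
  · rw [h, Set.ncard_singleton] at h1
    obtain ⟨v, hv⟩ := Set.ncard_eq_one.1 (show (Y.1 \ X.1).ncard = 1 by omega)
    have hu : u ∈ X.1 \ Y.1 := by rw [h]; rfl
    have hv' : v ∈ Y.1 \ X.1 := by rw [hv]; rfl
    obtain ⟨w, hw, hwv⟩ := X.2.1.2 v hv'.2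
    have hwu : w = u := by
      have : w ∈ X.1 \ Y.1 := ⟨hw, fun hY => Y.2.1.1 w hY v hv'.1 hwv⟩
      rwa [h] at this
    refine ⟨u, hu.1, v, hv'.2, hwu ▸ hwv, ?_⟩
    ext a
    constructor
    · intro ha
      by_cases haX : a ∈ X.1
      · exact Or.inr ⟨haX, fun e => hu.2 (by rw [← show a = u from e]; exact ha)⟩
      · have : a ∈ Y.1 \ X.1 := ⟨ha, haX⟩
        rw [hv] at this
        exact Or.inl this
    · rintro (rfl | ⟨ha, hau⟩)
      · exact hv'.1
      · by_contra hY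
        have : a ∈ X.1 \ Y.1 := ⟨ha, hY⟩
        rw [h] at this
        exact hau this

lemma square {W : Type} [Finite W] {G : SimpleGraph W} {A B C D : {S : Set W // IsISet G S}}
    (hAB : (iGraph G).Adj A B) (hBC : (iGraph G).Adj B C) (hDA : (iGraph G).Adj D A)
    (h1 : A ≠ C) (h2 : ¬ (iGraph G).Adj A C) (h3 : D ≠ B) (h4 : ¬ (iGraph G).Adj D B)
    {x : W} (hx : x ∈ A.1 \ B.1) : x ∈ D.1 \ C.1 := by
  constructor
  · by_contra hD
    refine h4 (sub_adj h3 ((adj_sub hDA).anti ?_))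
    intro d hd
    exact ⟨hd.1, fun hA => hD (adj_sub hAB hx ⟨hA, hd.2⟩ ▸ hd.1)⟩
  · intro hC
    refine h2 (sub_adj h1 ((adj_sub hBC).anti ?_))
    intro a ha
    refine ⟨?_, ha.2⟩
    by_contra hB
    exact ha.2 (adj_sub hAB hx ⟨ha.1, hB⟩ ▸ hC)

def lad (n : ℕ) : SimpleGraph (Fin n × Bool) where
  Adj p q := (p.1.1 = q.1.1 ∧ p.2 ≠ q.2) ∨ ((p.1.1 + 1 = q.1.1 ∨ q.1.1 + 1 = p.1.1) ∧ p.2 = q.2)
  symm := ⟨fun p q h => by
    rcases h with h | h
    · exact Or.inl ⟨h.1.symm, h.2.symm⟩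
    · exact Or.inr ⟨h.1.symm, h.2.symm⟩⟩
  loopless := ⟨fun p h => by
    rcases h with h | h
    · exact h.2 rfl
    · omega⟩

def mob (n : ℕ) : SimpleGraph (Fin n × Bool) where
  Adj p q := (lad n).Adj p q ∨
    (((p.1.1 = 0 ∧ q.1.1 + 1 = n) ∨ (q.1.1 = 0 ∧ p.1.1 + 1 = n)) ∧ p.2 ≠ q.2)
  symm := ⟨fun p q h => h.imp (fun h => h.symm) (fun h => ⟨h.1.symm, h.2.symm⟩)⟩
  loopless := ⟨fun p h => by
    rcases h with h | h
    · exact h.ne rfl
    · exact h.2 rfl⟩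

lemma mob_adj (n : ℕ) (i j : Fin n) (a b : Bool) : (mob n).Adj (i, a) (j, b) ↔
    ((i.1 = j.1 ∧ a ≠ b) ∨ ((i.1 + 1 = j.1 ∨ j.1 + 1 = i.1) ∧ a = b)) ∨
    (((i.1 = 0 ∧ j.1 + 1 = n) ∨ (j.1 = 0 ∧ i.1 + 1 = n)) ∧ a ≠ b) := Iff.rfl

lemma not_mob (n : ℕ) (hn : 3 ≤ n) : ¬ IsIGraph (mob n) := by
  rintro ⟨W, _, G, ⟨φ⟩⟩
  have sq : ∀ {A B C D : Fin n × Bool}, (mob n).Adj A B → (mob n).Adj B C → (mob n).Adj D A →
      A ≠ C → ¬ (mob n).Adj A C → D ≠ B → ¬ (mob n).Adj D B →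
      ∀ x ∈ (φ A).1 \ (φ B).1, x ∈ (φ D).1 \ (φ C).1 := by
    intro A B C D a1 a2 a3 a4 a5 a6 a7 x hx
    exact square (φ.map_adj_iff.2 a1) (φ.map_adj_iff.2 a2) (φ.map_adj_iff.2 a3)
      (φ.injective.ne a4) (fun h => a5 (φ.map_adj_iff.1 h)) (φ.injective.ne a6)
      (fun h => a7 (φ.map_adj_iff.1 h)) hx
  have h0 : (mob n).Adj (⟨0, by omega⟩, false) (⟨0, by omega⟩, true) := by simp [mob_adj]
  obtain ⟨x, hx, v, -, hxv, he⟩ := φ.map_adj_iff.2 h0
  have hx0 : x ∈ (φ (⟨0, by omega⟩, false)).1 \ (φ (⟨0, by omega⟩, true)).1 :=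
    ⟨hx, by rw [he]; simp [hxv.ne]⟩
  have all : ∀ k (hk : k < n), x ∈ (φ (⟨k, hk⟩, false)).1 \ (φ (⟨k, hk⟩, true)).1 := by
    intro k
    induction k with
    | zero => intro _; exact hx0
    | succ k ih =>
      intro hk
      refine sq ?_ ?_ ?_ ?_ ?_ ?_ ?_ x (ih (by omega)) <;> simp [mob_adj] <;> omega
  have fin : x ∈ (φ (⟨0, by omega⟩, true)).1 \ (φ (⟨0, by omega⟩, false)).1 := by
    refine sq ?_ ?_ ?_ ?_ ?_ ?_ ?_ x (all (n - 1) (by omega)) <;> simp [mob_adj] <;> omega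
  exact fin.2 hx

def seed (n : ℕ) : SimpleGraph (Fin (n + 1) ⊕ Bool) where
  Adj p q := match p, q with
    | .inl i, .inl j => i.1 ≠ j.1 ∧ i.1 + 1 ≠ j.1 ∧ j.1 + 1 ≠ i.1
    | .inr a, .inr b => a ≠ b
    | _, _ => False
  symm := ⟨by
    rintro (i | a) (j | b) h
    · exact ⟨h.1.symm, h.2.2, h.2.1⟩
    · exact h
    · exact h
    · exact Ne.symm h⟩
  loopless := ⟨by
    rintro (i | a) h
    · exact h.1 rfl
    · exact h rfl⟩

@[simp] lemma s_ll (n : ℕ) (i j : Fin (n + 1)) : (seed n).Adj (.inl i) (.inl j) ↔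
    i.1 ≠ j.1 ∧ i.1 + 1 ≠ j.1 ∧ j.1 + 1 ≠ i.1 := Iff.rfl
@[simp] lemma s_rr (n : ℕ) (a b : Bool) : (seed n).Adj (.inr a) (.inr b) ↔ a ≠ b := Iff.rfl
@[simp] lemma s_lr (n : ℕ) (i : Fin (n + 1)) (b : Bool) :
    (seed n).Adj (.inl i) (.inr b) ↔ False := Iff.rfl
@[simp] lemma s_rl (n : ℕ) (i : Fin (n + 1)) (b : Bool) :
    (seed n).Adj (.inr b) (.inl i) ↔ False := Iff.rfl

def S {n : ℕ} (p : Fin n × Bool) : Set (Fin (n + 1) ⊕ Bool) :=
  {.inl p.1.castSucc, .inl p.1.succ, .inr p.2}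

@[simp] lemma mem_l {n : ℕ} (p : Fin n × Bool) (i : Fin (n + 1)) :
    Sum.inl i ∈ S p ↔ i.1 = p.1.1 ∨ i.1 = p.1.1 + 1 := by simp [S, Fin.ext_iff]
@[simp] lemma mem_r {n : ℕ} (p : Fin n × Bool) (a : Bool) : Sum.inr a ∈ S p ↔ a = p.2 := by simp [S]

lemma S_card {n : ℕ} (p : Fin n × Bool) : (S p).ncard = 3 :=
  Set.ncard_eq_three.2 ⟨_, _, _, by simp [Fin.ext_iff], by simp, by simp, rfl⟩

lemma S_ind {n : ℕ} (p : Fin n × Bool) : IndepDom (seed n) (S p) := by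
  constructor
  · rintro (i | a) hi (j | b) hj
    · simp at *; omega
    · simp
    · simp
    · simp at *; rw [hi, hj]
  · rintro (i | a) hi
    · simp only [mem_l, not_or] at hi
      by_cases h : i.1 < p.1.1
      · exact ⟨.inl p.1.succ, by simp, by simp; omega⟩
      · exact ⟨.inl p.1.castSucc, by simp, by simp; omega⟩
    · exact ⟨.inr p.2, by simp, by simpa [eq_comm] using hi⟩

lemma S_all {n : ℕ} (hn : 0 < n) (T : Set (Fin (n + 1) ⊕ Bool)) (hT : IndepDom (seed n) T) :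
    ∃ p, T = S p := by
  classical
  obtain ⟨a, ha⟩ : ∃ a, Sum.inr a ∈ T := by
    by_cases h : Sum.inr true ∈ T
    · exact ⟨_, h⟩
    · obtain ⟨u | u, hu, h'⟩ := hT.2 _ h
      · simp at h'
      · exact ⟨_, hu⟩
  have hex : ∃ k, ∃ i : Fin (n + 1), i.1 = k ∧ Sum.inl i ∈ T := by
    by_cases h : Sum.inl 0 ∈ T
    · exact ⟨_, _, rfl, h⟩
    · obtain ⟨u | u, hu, h'⟩ := hT.2 _ h
      · exact ⟨_, _, rfl, hu⟩
      · simp at h'
  obtain ⟨i, hi, hiT⟩ := Nat.find_spec hex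
  have hmin : ∀ j : Fin (n + 1), Sum.inl j ∈ T → j.1 = i.1 ∨ j.1 = i.1 + 1 := by
    intro j hj
    have h1 := Nat.find_min' hex ⟨j, rfl, hj⟩
    have h2 := hT.1 _ hiT _ hj
    simp at h2
    omega
  have hlt : i.1 < n := by
    by_contra hc
    have hi' := i.2
    have h1 : Sum.inl (⟨n - 1, by omega⟩ : Fin (n + 1)) ∉ T := fun h => by
      have := hmin _ h
      simp at this
      omega
    obtain ⟨u | u, hu, h'⟩ := hT.2 _ h1
    · have := hmin u hu
      have := u.2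
      simp at h'
      omega
    · simp at h'
  refine ⟨(⟨i.1, hlt⟩, a), ?_⟩
  ext (j | b)
  · rw [mem_l]
    refine ⟨hmin j, ?_⟩
    rintro (h | h)
    · rwa [show j = i from Fin.ext h]
    · by_contra hj
      obtain ⟨u | u, hu, h'⟩ := hT.2 _ hj
      · have := hmin u hu
        simp at h' h
        omega
      · simp at h'
  · rw [mem_r]
    constructor
    · intro hb
      have := hT.1 _ hb _ ha
      simpa using this
    · rintro rfl; exact ha

lemma S_iset {n : ℕ} (hn : 0 < n) (p : Fin n × Bool) : IsISet (seed n) (S p) :=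
  ⟨S_ind p, fun T hT => by
    obtain ⟨q, rfl⟩ := S_all hn T hT
    rw [S_card, S_card]⟩

lemma S_inj {n : ℕ} (p q : Fin n × Bool) (h : S p = S q) : p = q := by
  have h1 : Sum.inl p.1.castSucc ∈ S q := h ▸ (by simp)
  have h2 : Sum.inl q.1.castSucc ∈ S p := h ▸ (by simp)
  have h3 : Sum.inr p.2 ∈ S q := h ▸ (by simp)
  simp at h1 h2 h3
  exact Prod.ext (Fin.ext (by omega)) h3

lemma is_lad (n : ℕ) (hn : 0 < n) : IsIGraph (lad n) := by
  refine ⟨_, inferInstance, seed n, ⟨⟨Equiv.ofBijective (fun p => ⟨S p, S_iset hn p⟩)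
    ⟨fun p q h => S_inj p q (congrArg Subtype.val h), fun T => ?_⟩, ?_⟩⟩⟩
  · obtain ⟨p, hp⟩ := S_all hn T.1 T.2.1
    exact ⟨p, Subtype.ext hp.symm⟩
  · rintro ⟨i, a⟩ ⟨j, b⟩
    rw [Equiv.ofBijective_apply, Equiv.ofBijective_apply]
    constructor
    · intro h
      have h1 := adj_sub h
      have h2 : (i, a) ≠ (j, b) := fun e => h.ne (by rw [e])
      have h3 : i.1 ≠ j.1 ∨ a ≠ b := by
        by_contra hc
        push Not at hc
        exact h2 (Prod.ext (Fin.ext hc.1) hc.2)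
      have e1 := @h1 (.inl i.castSucc)
      have e2 := @h1 (.inl i.succ)
      by_cases hab : a = b
      · refine Or.inr ⟨?_, hab⟩
        by_contra hc
        dsimp only at hc
        have h4 : i.1 ≠ j.1 := h3.resolve_right (not_not.2 hab)
        have := @e1 (by simp; omega) (.inl i.succ) (by simp; omega)
        simp [Fin.ext_iff] at this
      · refine Or.inl ⟨?_, hab⟩
        by_contra hc
        dsimp only at hc
        by_cases hlt : i.1 < j.1
        · have := @e1 (by simp; omega) (.inr a) (by simp [hab])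
          simp at this
        · have := @e2 (by simp; omega) (.inr a) (by simp [hab])
          simp at this
    · intro h
      refine sub_adj (fun e => h.ne (S_inj _ _ (congrArg Subtype.val e))) ?_
      rintro (x | x) hx (y | y) hy
      · simp at hx hy
        rcases h with h | h <;> simp [Fin.ext_iff] at h ⊢ <;> omega
      · simp at hx hy
        rcases h with h | h
        · simp at h; omega
        · exact absurd (hy.1.trans h.2) hy.2
      · simp at hx hy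
        rcases h with h | h
        · simp at h; omega
        · exact absurd (hx.1.trans h.2) hx.2
      · simp at hx hy
        rw [hx.1, hy.1]

lemma emb {U : Type} (F : SimpleGraph U) (n : ℕ) (hn : 3 ≤ n) (f : F ↪g mob n) (r : Fin n)
    (hr : ∀ u, (f u).1 ≠ r) : Nonempty (F ↪g lad n) := by
  let g : Fin n × Bool → Fin n × Bool := fun p =>
    if h : r.1 < p.1.1 then (⟨p.1.1 - r.1 - 1, by omega⟩, p.2)
    else (⟨p.1.1 + (n - r.1 - 1), by omega⟩, !p.2)
  have key : ∀ p q : Fin n × Bool, p.1 ≠ r → q.1 ≠ r →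
      (g p = g q → p = q) ∧ ((lad n).Adj (g p) (g q) ↔ (mob n).Adj p q) := by
    rintro ⟨i, a⟩ ⟨j, b⟩ hi hj
    have hi' : i.1 ≠ r.1 := fun h => hi (Fin.ext h)
    have hj' : j.1 ≠ r.1 := fun h => hj (Fin.ext h)
    have := i.2
    have := j.2
    have := r.2
    rw [mob_adj]
    simp only [g, lad]
    split_ifs <;> cases a <;> cases b <;> simp [Fin.ext_iff] <;> omega
  exact ⟨⟨⟨fun u => g (f u), fun u v h => f.injective ((key _ _ (hr u) (hr v)).1 h)⟩,
    fun {u v} => (key _ _ (hr u) (hr v)).2.trans f.map_adj_iff⟩⟩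

/-- The class of `i`-graphs has no characterisation by finitely many forbidden induced subgraphs. -/
theorem result : ¬ ∃ 𝓕 : Set (Σ n : ℕ, SimpleGraph (Fin n)), 𝓕.Finite ∧
    ∀ (V : Type) [Finite V] (H : SimpleGraph V),
      IsIGraph H ↔ ¬ ∃ F ∈ 𝓕, Nonempty (F.2 ↪g H) := by
  rintro ⟨𝓕, hfin, h⟩
  obtain ⟨N, hN⟩ := (hfin.image (fun F => F.1)).bddAbove
  have h1 := (h _ (mob (N + 3))).not.1 (not_mob _ (by omega))
  obtain ⟨F, hF, ⟨f⟩⟩ := not_not.1 h1
  have hle : F.1 ≤ N := hN ⟨F, hF, rfl⟩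
  have : ¬ Function.Surjective (fun u => (f u).1) := fun hs => by
    have := Fintype.card_le_of_surjective _ hs
    simp at this
    omega
  obtain ⟨r, hr⟩ := not_forall.1 this
  exact (h _ (lad (N + 3))).1 (is_lad _ (by omega))
    ⟨F, hF, emb F.2 _ (by omega) f r (fun u hu => hr ⟨u, hu⟩)⟩

end Pool.Agent.Results.MP_540c93_co.NoFinite
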